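import Pool.Agent.H.MP_86f3ed_an.Sf.Full2

open scoped InnerProductSpace Topology
open Pool.Agent.MP_86f3ed

namespace Pool.Agent.Results.MP_86f3ed_an.SemifiniteInjective

universe u v

/-- Let `A` be an approximately amenable C*-algebra and `π` a representation of `A` on a separable
Hilbert space `H` whose commutant `N = π(A)'` is a factor. Let `ζ` be a unit vector with `π(A)ζ`
dense whose vector state is a trace on `N`. Then `N` is injective. Every semifinite factor
representation of `A` on a separable space becomes of this form when it is cut down by a suitable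
finite projection of its commutant. -/
theorem result (A : Type u) [NonUnitalCStarAlgebra A] (hA : ApproximatelyAmenable.{u, v} A)
    (H : Type v) [NormedAddCommGroup H] [InnerProductSpace ℂ H] [CompleteSpace H]
    [TopologicalSpace.SeparableSpace H]
    (π : A →⋆ₙₐ[ℂ] (H →L[ℂ] H)) (ζ : H) (hζ : ‖ζ‖ = 1) (hcyc : DenseRange fun a => π a ζ)
    (hfac : ∀ x ∈ (Set.range π).centralizer, x ∈ (Set.range π).centralizer.centralizer →
      ∃ c : ℂ, x = c • (1 : H →L[ℂ] H))
    (htr : ∀ x ∈ (Set.range π).centralizer, ∀ y ∈ (Set.range π).centralizer,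
      ⟪ζ, x (y ζ)⟫_ℂ = ⟪ζ, y (x ζ)⟫_ℂ) :
    IsInjective (Set.range π).centralizer :=
  Sf.injective_semifinite hA π ζ hζ hcyc hfac htr

end Pool.Agent.Results.MP_86f3ed_an.SemifiniteInjective
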