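import Pool.Agent.H.MP_86f3ed_an.Pin.Pub

open Pool.Agent.MP_86f3ed Pool.Agent.MP_86f3ed.Pin

namespace Pool.Agent.Results.MP_86f3ed_an.TypeThree

universe u v

/-- Let `A` be an approximately amenable C*-algebra and `π` a representation of `A` on `H` such
that `π(A)'` and `π(A)''` are countably decomposable factors of type III with the Connes-Størmer
property (this is the case when the factor is of type `III_λ` with `0 < λ ≤ 1`). Then `π(A)'` is
injective, that is, it is the range of a projection of norm one on the bounded operators. -/
theorem result (A : Type u) [NonUnitalCStarAlgebra A] (hA : ApproximatelyAmenable.{u, v} A)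
    (H : Type v) [NormedAddCommGroup H] [InnerProductSpace ℂ H] [CompleteSpace H]
    (π : A →⋆ₙₐ[ℂ] (H →L[ℂ] H))
    (hN : PurelyInfinite (Set.range π).centralizer)
    (hM : PurelyInfinite (Set.range π).centralizer.centralizer)
    (hCS : ConnesStormer (Set.range π).centralizer.centralizer (Set.range π).centralizer) :
    IsInjective (Set.range π).centralizer :=
  main_theorem hA π hN hM hCS

end Pool.Agent.Results.MP_86f3ed_an.TypeThree
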